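import Pool.Agent.Q4.HCB.Final2

namespace Pool.Agent.Results.MP_a304db_al.NotAMetric

open Q4.HC

/-- For the real reductive group `G = SL(2, ℝ)` there are a Harish-Chandra module `V`, a weight `w`
and norms `p, q ∈ Norm(V, w)` with `d([p], [q]) = 0` (whatever the normalization `c > 0` of the
invariant form; the Cartan-Killing form has `c = 1 / 8`) although `[p] ≠ [q]`. -/
theorem result :
    ∃ (V : Type) (_ : AddCommGroup V) (_ : Module ℂ V) (D : Ops 1 V),
      D.IsHarishChandra ∧ ∃ w : G 1 → ℝ, IsWeightFunction w ∧ ∃ p q : V → ℝ,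
        InNorm D w p ∧ InNorm D w q ∧ (∀ c : ℝ, 0 < c → sobDist D c p q = 0) ∧
          ¬ NormEquiv p q :=
  ⟨VV, inferInstance, inferInstance, DD, harish_chandra2, ww, ww_weight, pp 0, pp 1,
    inNorm 0 (by simp), inNorm 1 (by simp), fun c hc => by
      rw [sobDist, dArrow_eq_zero 0 1 hc, dArrow_eq_zero 1 0 hc, max_self], not_equiv⟩

end Pool.Agent.Results.MP_a304db_al.NotAMetric
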